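import Mathlib

set_option autoImplicit false

namespace Pool.Agent.Results.MP_07f7bf_an.EulerTop

noncomputable section

/-- `Π(X)`: pairs `(x, x*)` of norm one vectors and functionals with `x*(x) = 1`. -/
def stateSet (X : Type) [NormedAddCommGroup X] [NormedSpace ℝ X] : Set (X × StrongDual ℝ X) :=
  {p | ‖p.1‖ = 1 ∧ ‖p.2‖ = 1 ∧ p.2 p.1 = 1}

/-- The numerical radius `v(F) = sup {|x*(F x)| : (x,x*) ∈ Π(X)}`. -/
def numRad {X : Type} [NormedAddCommGroup X] [NormedSpace ℝ X] (F : X → X) : ℝ :=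
  sSup ((fun p : X × StrongDual ℝ X => |p.2 (F p.1)|) '' stateSet X)

/-- The homogeneous polynomial `x ↦ A(x,…,x)` of a bounded `k`-linear map `A`. -/
def poly {X : Type} [NormedAddCommGroup X] [NormedSpace ℝ X] {k : ℕ}
    (A : ContinuousMultilinearMap ℝ (fun _ : Fin k => X) X) : X → X :=
  fun x => A (fun _ => x)

/-- The norm `‖P‖ = sup {‖P x‖ : ‖x‖ ≤ 1}` of a homogeneous polynomial. -/
def polyNorm {X : Type} [NormedAddCommGroup X] [NormedSpace ℝ X] (P : X → X) : ℝ :=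
  sSup ((fun x => ‖P x‖) '' {x : X | ‖x‖ ≤ 1})

/-- The polynomial numerical index `n^{(k)}(X)`. -/
def polyIndex (k : ℕ) (X : Type) [NormedAddCommGroup X] [NormedSpace ℝ X] : ℝ :=
  sInf {r | ∃ A : ContinuousMultilinearMap ℝ (fun _ : Fin k => X) X,
    polyNorm (poly A) = 1 ∧ numRad (poly A) = r}

/-- The numerical index `n(X)`. -/
def numIndex (X : Type) [NormedAddCommGroup X] [NormedSpace ℝ X] : ℝ :=
  sInf {r | ∃ T : X →L[ℝ] X, ‖T‖ = 1 ∧ numRad (fun x => T x) = r}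

/-! ### The space -/

abbrev E : Type := EuclideanSpace ℝ (Fin 3)

def s (i : Fin 3) : ℝ := ![1, 2, 3] i

def X : Type := Fin 3 → ℝ

instance : AddCommGroup X := inferInstanceAs (AddCommGroup (Fin 3 → ℝ))
instance instModX : Module ℝ X := inferInstanceAs (Module ℝ (Fin 3 → ℝ))

def u : X →ₗ[ℝ] E where
  toFun x := WithLp.toLp 2 (fun i : Fin 3 => (x : Fin 3 → ℝ) i)
  map_add' _ _ := rfl
  map_smul' _ _ := rfl

def w : X →ₗ[ℝ] E where
  toFun x := WithLp.toLp 2 (fun i : Fin 3 => s i * (x : Fin 3 → ℝ) i)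
  map_add' x y := by
    ext i
    change s i * ((x : Fin 3 → ℝ) i + (y : Fin 3 → ℝ) i) = s i * (x : Fin 3 → ℝ) i + s i * (y : Fin 3 → ℝ) i
    ring
  map_smul' c x := by
    ext i
    change s i * (c * (x : Fin 3 → ℝ) i) = c * (s i * (x : Fin 3 → ℝ) i)
    ring

lemma u_inj {x : X} (h : u x = 0) : x = 0 := by
  funext i
  have := congrArg (fun v : E => v i) h
  exact this

lemma w_inj {x : X} (h : w x = 0) : x = 0 := by
  funext i
  have : s i * (x : Fin 3 → ℝ) i = 0 := congrArg (fun v : E => v i) h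
  rcases mul_eq_zero.1 this with h1 | h1
  · exfalso
    fin_cases i <;> simp [s] at h1
  · exact h1

def nrm : AddGroupNorm X where
  toFun x := ‖u x‖ + ‖w x‖
  map_zero' := by simp
  add_le' x y := by
    rw [map_add, map_add]
    have h1 := norm_add_le (u x) (u y)
    have h2 := norm_add_le (w x) (w y)
    linarith
  neg' x := by rw [map_neg, map_neg, norm_neg, norm_neg]
  eq_zero_of_map_eq_zero' x h := by
    have h1 := norm_nonneg (u x)
    have h2 := norm_nonneg (w x)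
    exact u_inj (norm_eq_zero.1 (by linarith))

instance : NormedAddCommGroup X := nrm.toNormedAddCommGroup

lemma norm_def (x : X) : ‖x‖ = ‖u x‖ + ‖w x‖ := rfl

instance : NormedSpace ℝ X :=
  { instModX with
    norm_smul_le := by
      intro a b
      have h1 : u (a • b) = a • u b := map_smul u a b
      have h2 : w (a • b) = a • w b := map_smul w a b
      rw [norm_def, norm_def]
      change ‖u (a • b)‖ + ‖w (a • b)‖ ≤ ‖a‖ * (‖u b‖ + ‖w b‖)
      rw [h1, h2, norm_smul, norm_smul]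
      exact le_of_eq (by ring) }

instance : FiniteDimensional ℝ X := inferInstanceAs (FiniteDimensional ℝ (Fin 3 → ℝ))

instance : Nontrivial X := inferInstanceAs (Nontrivial (Fin 3 → ℝ))

/-- coordinates -/
def co (i : Fin 3) : X →ₗ[ℝ] ℝ where
  toFun x := (x : Fin 3 → ℝ) i
  map_add' _ _ := rfl
  map_smul' _ _ := rfl

lemma iu (x y : X) : inner ℝ (u x) (u y) = co 0 x * co 0 y + co 1 x * co 1 y + co 2 x * co 2 y := by
  rw [PiLp.inner_apply, Fin.sum_univ_three]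
  simp [u, co]
  ring

lemma iw (x y : X) :
    inner ℝ (w x) (w y) = co 0 x * co 0 y + 4 * (co 1 x * co 1 y) + 9 * (co 2 x * co 2 y) := by
  rw [PiLp.inner_apply, Fin.sum_univ_three]
  simp [w, co, s]
  ring

/-- the (sub)gradient functional of the norm at `x` -/
def F (x : X) : X →L[ℝ] ℝ :=
  LinearMap.toContinuousLinearMap
    { toFun := fun y => inner ℝ (u x) (u y) / ‖u x‖ + inner ℝ (w x) (w y) / ‖w x‖
      map_add' := by
        intro y z
        rw [map_add, map_add, inner_add_right, inner_add_right]; ring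
      map_smul' := by
        intro c y
        rw [map_smul, map_smul, inner_smul_right, inner_smul_right]
        simp only [RingHom.id_apply, smul_eq_mul]; ring }

lemma F_apply (x y : X) :
    F x y = inner ℝ (u x) (u y) / ‖u x‖ + inner ℝ (w x) (w y) / ‖w x‖ := rfl

lemma F_bound (x y : X) (hx : x ≠ 0) : |F x y| ≤ ‖y‖ := by
  rw [F_apply, norm_def]
  have h1 : 0 < ‖u x‖ := norm_pos_iff.2 (fun h => hx (u_inj h))
  have h2 : 0 < ‖w x‖ := norm_pos_iff.2 (fun h => hx (w_inj h))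
  refine (abs_add_le _ _).trans (add_le_add ?_ ?_)
  · rw [abs_div, abs_norm, div_le_iff₀ h1, mul_comm]
    exact abs_real_inner_le_norm _ _
  · rw [abs_div, abs_norm, div_le_iff₀ h2, mul_comm]
    exact abs_real_inner_le_norm _ _

lemma F_self (x : X) (hx : x ≠ 0) : F x x = ‖x‖ := by
  rw [F_apply, norm_def]
  have h1 : 0 < ‖u x‖ := norm_pos_iff.2 (fun h => hx (u_inj h))
  have h2 : 0 < ‖w x‖ := norm_pos_iff.2 (fun h => hx (w_inj h))
  rw [real_inner_self_eq_norm_sq, real_inner_self_eq_norm_sq]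
  field_simp

lemma F_norm (x : X) (hx : x ≠ 0) : ‖F x‖ = 1 := by
  apply le_antisymm
  · refine ContinuousLinearMap.opNorm_le_bound _ zero_le_one ?_
    intro y
    rw [one_mul]
    exact F_bound x y hx
  · have h := (F x).le_opNorm x
    rw [F_self x hx, Real.norm_eq_abs, abs_norm] at h
    have hp : 0 < ‖x‖ := norm_pos_iff.2 hx
    by_contra hlt
    rw [not_le] at hlt
    nlinarith

lemma state_mem (x : X) (hx : x ≠ 0) : ((‖x‖⁻¹ • x : X), F x) ∈ stateSet X := by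
  have hp : 0 < ‖x‖ := norm_pos_iff.2 hx
  refine ⟨?_, F_norm x hx, ?_⟩
  · simp only
    rw [norm_smul, norm_inv, norm_norm, inv_mul_cancel₀ hp.ne']
  · simp only
    rw [map_smul, F_self x hx, smul_eq_mul, inv_mul_cancel₀ hp.ne']

lemma numRad_bdd (T : X →L[ℝ] X) :
    BddAbove ((fun p : X × StrongDual ℝ X => |p.2 (T p.1)|) '' stateSet X) := by
  refine ⟨‖T‖, ?_⟩
  rintro _ ⟨p, hp, rfl⟩
  calc |p.2 (T p.1)| ≤ ‖p.2‖ * ‖T p.1‖ := p.2.le_opNorm _
    _ ≤ ‖p.2‖ * (‖T‖ * ‖p.1‖) := by gcongr; exact T.le_opNorm _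
    _ = ‖T‖ := by rw [hp.1, hp.2.1]; ring

lemma numRad_ge (T : X →L[ℝ] X) (x : X) (hx : x ≠ 0) :
    |F x (T x)| ≤ ‖x‖ * numRad (fun x => T x) := by
  have hp : 0 < ‖x‖ := norm_pos_iff.2 hx
  have h := le_csSup (numRad_bdd T) ⟨_, state_mem x hx, rfl⟩
  have h2 : |F x (T (‖x‖⁻¹ • x))| ≤ numRad (fun x => T x) := h
  rw [map_smul, map_smul, smul_eq_mul, abs_mul, abs_inv, abs_norm, inv_mul_le_iff₀ hp] at h2
  exact h2

/-! ### The quadratic vector field of Euler's top -/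

/-- continuous coordinates -/
def cc (i : Fin 3) : X →L[ℝ] ℝ := LinearMap.toContinuousLinearMap (co i)

lemma cc_apply (i : Fin 3) (x : X) : cc i x = co i x := rfl

def bas (i : Fin 3) : X := (Pi.single i (1:ℝ) : Fin 3 → ℝ)

lemma co_bas (i j : Fin 3) : co i (bas j) = if i = j then 1 else 0 := by
  change (Pi.single j (1:ℝ) : Fin 3 → ℝ) i = _
  rw [Pi.single_apply]

def tens (f g : X →L[ℝ] ℝ) (v : X) : ContinuousMultilinearMap ℝ (fun _ : Fin 2 => X) X :=
  ((ContinuousMultilinearMap.mkPiAlgebra ℝ (Fin 2) ℝ).compContinuousLinearMap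
    (fun i => (![f, g] : Fin 2 → (X →L[ℝ] ℝ)) i)).smulRight v

lemma tens_apply (f g : X →L[ℝ] ℝ) (v : X) (m : Fin 2 → X) : tens f g v m = (f (m 0) * g (m 1)) • v := by
  simp [tens, Fin.prod_univ_two]

def A : ContinuousMultilinearMap ℝ (fun _ : Fin 2 => X) X :=
  tens (cc 1) (cc 2) ((5:ℝ) • bas 0) + tens (cc 2) (cc 0) ((-8:ℝ) • bas 1)
    + tens (cc 0) (cc 1) ((3:ℝ) • bas 2)

lemma A_apply (x : X) : poly A x =
    (co 1 x * co 2 x) • ((5:ℝ) • bas 0) + (co 2 x * co 0 x) • ((-8:ℝ) • bas 1)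
    + (co 0 x * co 1 x) • ((3:ℝ) • bas 2) := by
  unfold poly A
  rw [add_apply, add_apply, tens_apply, tens_apply, tens_apply]
  rfl

lemma A_co0 (x : X) : co 0 (poly A x) = 5 * (co 1 x * co 2 x) := by
  rw [A_apply]
  simp only [map_add, map_smul, co_bas, smul_eq_mul]
  simp
  ring

lemma A_co1 (x : X) : co 1 (poly A x) = -8 * (co 2 x * co 0 x) := by
  rw [A_apply]
  simp only [map_add, map_smul, co_bas, smul_eq_mul]
  simp
  ring

lemma A_co2 (x : X) : co 2 (poly A x) = 3 * (co 0 x * co 1 x) := by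
  rw [A_apply]
  simp only [map_add, map_smul, co_bas, smul_eq_mul]
  simp
  ring

lemma perp_u (x : X) : inner ℝ (u x) (u (poly A x)) = 0 := by
  rw [iu, A_co0, A_co1, A_co2]; ring

lemma perp_w (x : X) : inner ℝ (w x) (w (poly A x)) = 0 := by
  rw [iw, A_co0, A_co1, A_co2]; ring

/-- first order invariance of the norm along the vector field -/
lemma norm_flow (x : X) (c t : ℝ) (hx : ‖x‖ = 1) :
    ‖x + (t * c) • poly A x‖ ≤ 1 + t ^ 2 * (c ^ 2 * (‖u (poly A x)‖ ^ 2 / ‖u x‖ + ‖w (poly A x)‖ ^ 2 / ‖w x‖)) := by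
  have hx0 : x ≠ 0 := by
    rintro rfl
    simp at hx
  have h1 : 0 < ‖u x‖ := norm_pos_iff.2 (fun h => hx0 (u_inj h))
  have h2 : 0 < ‖w x‖ := norm_pos_iff.2 (fun h => hx0 (w_inj h))
  have aux : ∀ (a b : E), 0 < ‖a‖ → inner ℝ a b = 0 →
      ‖a + (t * c) • b‖ ≤ ‖a‖ + t ^ 2 * (c ^ 2 * (‖b‖ ^ 2 / ‖a‖)) := by
    intro a b ha hab
    have h3 : ‖a + (t * c) • b‖ ^ 2 = ‖a‖ ^ 2 + (t * c) ^ 2 * ‖b‖ ^ 2 := by
      rw [@norm_add_sq_real, inner_smul_right, hab, norm_smul, Real.norm_eq_abs, mul_pow, sq_abs]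
      ring
    have h4 : 0 ≤ t ^ 2 * (c ^ 2 * (‖b‖ ^ 2 / ‖a‖)) := by positivity
    apply le_of_sq_le_sq _ (by positivity)
    rw [h3]
    have h5 : ‖a‖ * (t ^ 2 * (c ^ 2 * (‖b‖ ^ 2 / ‖a‖))) = (t * c) ^ 2 * ‖b‖ ^ 2 := by
      field_simp
    nlinarith [sq_nonneg (t ^ 2 * (c ^ 2 * (‖b‖ ^ 2 / ‖a‖)))]
  rw [norm_def] at hx ⊢
  rw [map_add, map_add, map_smul, map_smul]
  have h3 := aux (u x) (u (poly A x)) h1 (perp_u x)
  have h4 := aux (w x) (w (poly A x)) h2 (perp_w x)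
  have h5 : t ^ 2 * (c ^ 2 * (‖u (poly A x)‖ ^ 2 / ‖u x‖ + ‖w (poly A x)‖ ^ 2 / ‖w x‖))
      = t ^ 2 * (c ^ 2 * (‖u (poly A x)‖ ^ 2 / ‖u x‖)) + t ^ 2 * (c ^ 2 * (‖w (poly A x)‖ ^ 2 / ‖w x‖)) := by
    ring
  rw [h5]
  linarith

lemma state_zero (x : X) (f : StrongDual ℝ X) (h : (x, f) ∈ stateSet X) : f (poly A x) = 0 := by
  obtain ⟨hx, hf, hfx⟩ := h
  simp only at hx hf hfx
  set M := ‖u (poly A x)‖ ^ 2 / ‖u x‖ + ‖w (poly A x)‖ ^ 2 / ‖w x‖ with hM
  have hM0 : 0 ≤ M := by positivity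
  set v := f (poly A x) with hv
  -- use `t = ± ε`
  have key : ∀ t : ℝ, t * v ≤ t ^ 2 * M := by
    intro t
    have h1 := norm_flow x 1 t hx
    rw [mul_one, one_pow, one_mul, ← hM] at h1
    have h2 : f (x + t • poly A x) ≤ ‖x + t • poly A x‖ := by
      calc f (x + t • poly A x) ≤ ‖f (x + t • poly A x)‖ := Real.le_norm_self _
        _ ≤ ‖f‖ * ‖x + t • poly A x‖ := f.le_opNorm _
        _ = ‖x + t • poly A x‖ := by rw [hf, one_mul]
    rw [map_add, map_smul, hfx, smul_eq_mul, ← hv] at h2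
    linarith
  by_contra hne
  have h1 := key (v / (2 * (M + 1)))
  have hMp : 0 < 2 * (M + 1) := by linarith
  have hv2 : 0 < v ^ 2 := by positivity
  have e1 : v / (2 * (M + 1)) * v = v ^ 2 / (2 * (M + 1)) := by ring
  have e2 : (v / (2 * (M + 1))) ^ 2 * M = v ^ 2 * M / (2 * (M + 1)) ^ 2 := by rw [div_pow, div_mul_eq_mul_div]
  rw [e1, e2, div_le_div_iff₀ hMp (by positivity)] at h1
  nlinarith [mul_pos hv2 hMp, mul_nonneg (mul_nonneg hv2.le hM0) hMp.le]

lemma numRad_smul_A (c : ℝ) : numRad (poly (c • A)) = 0 := by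
  have : ∀ r ∈ ((fun p : X × StrongDual ℝ X => |p.2 (poly (c • A) p.1)|) '' stateSet X), r = 0 := by
    rintro _ ⟨p, hp, rfl⟩
    have h1 : poly (c • A) p.1 = c • poly A p.1 := rfl
    simp only
    rw [h1, map_smul, state_zero p.1 p.2 hp]
    simp
  apply le_antisymm
  · exact Real.sSup_le (fun r hr => (this r hr).le) le_rfl
  · exact Real.sSup_nonneg (fun r hr => (this r hr).ge)

lemma polyNorm_bdd (B : ContinuousMultilinearMap ℝ (fun _ : Fin 2 => X) X) :
    BddAbove ((fun x => ‖poly B x‖) '' {x : X | ‖x‖ ≤ 1}) := by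
  refine ⟨‖B‖, ?_⟩
  rintro _ ⟨x, hx, rfl⟩
  have hx' : ‖x‖ ≤ 1 := hx
  calc ‖B (fun _ => x)‖ ≤ ‖B‖ * ∏ _i : Fin 2, ‖x‖ := B.le_opNorm _
    _ ≤ ‖B‖ * 1 := by
      gcongr
      exact Finset.prod_le_one (fun _ _ => norm_nonneg _) (fun _ _ => hx')
    _ = ‖B‖ := mul_one _

lemma polyNorm_pos : 0 < polyNorm (poly A) := by
  set x : X := bas 1 + bas 2 with hxdef
  have hx0 : x ≠ 0 := by
    intro h
    have : co 1 x = 0 := by rw [h, map_zero]
    rw [hxdef, map_add, co_bas, co_bas] at this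
    simp at this
  have hp : 0 < ‖x‖ := norm_pos_iff.2 hx0
  set y : X := ‖x‖⁻¹ • x with hy
  have hy1 : ‖y‖ ≤ 1 := by
    rw [hy, norm_smul, norm_inv, norm_norm, inv_mul_cancel₀ hp.ne']
  have h1 : ‖poly A y‖ ≤ polyNorm (poly A) := le_csSup (polyNorm_bdd A) ⟨y, hy1, rfl⟩
  refine lt_of_lt_of_le (norm_pos_iff.2 ?_) h1
  intro h
  have : co 0 (poly A y) = 0 := by rw [h, map_zero]
  rw [A_co0, hy, map_smul, map_smul, hxdef, map_add, map_add, co_bas, co_bas, co_bas, co_bas] at this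
  simp at this
  rw [← hxdef] at this
  exact hx0 this

lemma polyNorm_smul (c : ℝ) (hc : 0 ≤ c) : polyNorm (poly (c • A)) = c * polyNorm (poly A) := by
  unfold polyNorm
  rw [← smul_eq_mul, ← Real.sSup_smul_of_nonneg hc]
  congr 1
  ext r
  constructor
  · rintro ⟨x, hx, rfl⟩
    refine ⟨‖poly A x‖, ⟨x, hx, rfl⟩, ?_⟩
    have h1 : poly (c • A) x = c • poly A x := rfl
    simp only
    rw [h1, norm_smul, Real.norm_eq_abs, abs_of_nonneg hc, smul_eq_mul]
  · rintro ⟨_, ⟨x, hx, rfl⟩, rfl⟩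
    refine ⟨x, hx, ?_⟩
    have h1 : poly (c • A) x = c • poly A x := rfl
    simp only
    rw [h1, norm_smul, Real.norm_eq_abs, abs_of_nonneg hc, smul_eq_mul]

lemma polyIndex_zero : polyIndex 2 X = 0 := by
  unfold polyIndex
  apply le_antisymm
  · apply csInf_le
    · refine ⟨0, ?_⟩
      rintro r ⟨B, _, rfl⟩
      exact Real.sSup_nonneg (by rintro _ ⟨p, _, rfl⟩; exact abs_nonneg _)
    · refine ⟨(polyNorm (poly A))⁻¹ • A, ?_, numRad_smul_A _⟩
      rw [polyNorm_smul _ (inv_nonneg.2 polyNorm_pos.le), inv_mul_cancel₀ polyNorm_pos.ne']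
  · apply Real.sInf_nonneg
    rintro r ⟨B, _, rfl⟩
    exact Real.sSup_nonneg (by rintro _ ⟨p, _, rfl⟩; exact abs_nonneg _)

/-! ### No linear infinitesimal isometries -/

lemma expand (x : X) : x = co 0 x • bas 0 + co 1 x • bas 1 + co 2 x • bas 2 := by
  funext i
  change (x : Fin 3 → ℝ) i = co 0 x * (Pi.single 0 (1:ℝ) : Fin 3 → ℝ) i
    + co 1 x * (Pi.single 1 (1:ℝ) : Fin 3 → ℝ) i + co 2 x * (Pi.single 2 (1:ℝ) : Fin 3 → ℝ) i
  fin_cases i <;> simp [co]

lemma two_eq {p q U V : ℝ} (hp : 0 < p) (hq : 0 < q) (hpq : p ≠ q)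
    (h1 : U / √2 + V / √(p + q) = 0) (h2 : (2 * U) / √5 + (2 * V) / √(p + 4 * q) = 0) :
    U = 0 ∧ V = 0 := by
  have s2 : 0 < √(2:ℝ) := by positivity
  have s5 : 0 < √(5:ℝ) := by positivity
  have sa : 0 < √(p + q) := by positivity
  have sb : 0 < √(p + 4 * q) := by positivity
  have q2 : √(2:ℝ) ^ 2 = 2 := Real.sq_sqrt (by norm_num)
  have q5 : √(5:ℝ) ^ 2 = 5 := Real.sq_sqrt (by norm_num)
  have qa : √(p + q) ^ 2 = p + q := Real.sq_sqrt (by positivity)
  have qb : √(p + 4 * q) ^ 2 = p + 4 * q := Real.sq_sqrt (by positivity)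
  rw [div_add_div _ _ s2.ne' sa.ne', div_eq_zero_iff] at h1
  rw [div_add_div _ _ s5.ne' sb.ne', div_eq_zero_iff] at h2
  have h1' : U * √(p + q) = - (√2 * V) := by
    rcases h1 with h | h
    · linarith
    · exfalso; have := mul_pos s2 sa; linarith
  have h2' : U * √(p + 4 * q) = - (√5 * V) := by
    rcases h2 with h | h
    · linarith
    · exfalso; have := mul_pos s5 sb; linarith
  have k1 : U ^ 2 * (p + q) = 2 * V ^ 2 := by
    have : (U * √(p + q)) ^ 2 = (- (√2 * V)) ^ 2 := by rw [h1']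
    rw [mul_pow, qa, neg_sq, mul_pow, q2] at this
    exact this
  have k2 : U ^ 2 * (p + 4 * q) = 5 * V ^ 2 := by
    have : (U * √(p + 4 * q)) ^ 2 = (- (√5 * V)) ^ 2 := by rw [h2']
    rw [mul_pow, qb, neg_sq, mul_pow, q5] at this
    exact this
  have k3 : U ^ 2 * (3 * (p - q)) = 0 := by linear_combination 5 * k1 - 2 * k2
  have hU : U = 0 := by
    rcases mul_eq_zero.1 k3 with h | h
    · exact pow_eq_zero_iff (two_ne_zero) |>.1 h
    · exfalso; apply hpq; linarith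
  refine ⟨hU, ?_⟩
  rw [hU] at k1
  have : V ^ 2 = 0 := by linarith
  exact pow_eq_zero_iff (two_ne_zero) |>.1 this

lemma nu_eq (x : X) : ‖u x‖ = √(co 0 x * co 0 x + co 1 x * co 1 x + co 2 x * co 2 x) := by
  rw [← iu, real_inner_self_eq_norm_sq, Real.sqrt_sq (norm_nonneg _)]

lemma nw_eq (x : X) : ‖w x‖ = √(co 0 x * co 0 x + 4 * (co 1 x * co 1 x) + 9 * (co 2 x * co 2 x)) := by
  rw [← iw, real_inner_self_eq_norm_sq, Real.sqrt_sq (norm_nonneg _)]

lemma F_coord (x y : X) : F x y =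
    (co 0 x * co 0 y + co 1 x * co 1 y + co 2 x * co 2 y) /
      √(co 0 x * co 0 x + co 1 x * co 1 x + co 2 x * co 2 x) +
    (co 0 x * co 0 y + 4 * (co 1 x * co 1 y) + 9 * (co 2 x * co 2 y)) /
      √(co 0 x * co 0 x + 4 * (co 1 x * co 1 x) + 9 * (co 2 x * co 2 x)) := by
  rw [F_apply, iu, iw, nu_eq, nw_eq]

/-- test vectors -/
def tv : Fin 9 → X := ![bas 0, bas 1, bas 2, bas 0 + bas 1, bas 0 + (2:ℝ) • bas 1,
  bas 0 + bas 2, bas 0 + (2:ℝ) • bas 2, bas 1 + bas 2, bas 1 + (2:ℝ) • bas 2]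

def Lmap : (X →L[ℝ] X) →ₗ[ℝ] (Fin 9 → ℝ) where
  toFun T k := F (tv k) (T (tv k))
  map_add' S T := by
    funext k
    simp
  map_smul' c T := by
    funext k
    simp

lemma tv_ne (k : Fin 9) : tv k ≠ 0 := by
  intro h
  have h0 : co 0 (tv k) = 0 := by rw [h, map_zero]
  have h1 : co 1 (tv k) = 0 := by rw [h, map_zero]
  have h2 : co 2 (tv k) = 0 := by rw [h, map_zero]
  fin_cases k <;> simp [tv, co_bas] at h0 h1 h2

lemma cb00 : co 0 (bas 0) = 1 := by rw [co_bas]; rfl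
lemma cb01 : co 0 (bas 1) = 0 := by rw [co_bas]; rfl
lemma cb02 : co 0 (bas 2) = 0 := by rw [co_bas]; rfl
lemma cb10 : co 1 (bas 0) = 0 := by rw [co_bas]; rfl
lemma cb11 : co 1 (bas 1) = 1 := by rw [co_bas]; rfl
lemma cb12 : co 1 (bas 2) = 0 := by rw [co_bas]; rfl
lemma cb20 : co 2 (bas 0) = 0 := by rw [co_bas]; rfl
lemma cb21 : co 2 (bas 1) = 0 := by rw [co_bas]; rfl
lemma cb22 : co 2 (bas 2) = 1 := by rw [co_bas]; rfl

lemma Lmap_inj : Function.Injective Lmap := by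
  rw [← LinearMap.ker_eq_bot, LinearMap.ker_eq_bot']
  intro T hT
  have h : ∀ k, F (tv k) (T (tv k)) = 0 := fun k => congrFun hT k
  have a0 := h 0
  have a1 := h 1
  have a2 := h 2
  have a3 := h 3
  have a4 := h 4
  have a5 := h 5
  have a6 := h 6
  have a7 := h 7
  have a8 := h 8
  simp only [tv, Matrix.cons_val] at a0 a1 a2 a3 a4 a5 a6 a7 a8
  rw [F_coord] at a0 a1 a2 a3 a4 a5 a6 a7 a8
  simp only [map_add, map_smul, cb00, cb01, cb02, cb10, cb11, cb12, cb20, cb21, cb22, smul_eq_mul]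
    at a0 a1 a2 a3 a4 a5 a6 a7 a8
  have t00 : co 0 (T (bas 0)) = 0 := by
    norm_num at a0
    linarith
  have t11 : co 1 (T (bas 1)) = 0 := by
    norm_num at a1
    linarith
  have t22 : co 2 (T (bas 2)) = 0 := by
    norm_num at a2
    linarith
  have p01 := two_eq (p := 1) (q := 4) (U := co 0 (T (bas 1)) + co 1 (T (bas 0)))
    (V := co 0 (T (bas 1)) + 4 * co 1 (T (bas 0))) (by norm_num) (by norm_num) (by norm_num)
    (by
      rw [t00, t11] at a3
      norm_num at a3 ⊢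
      rw [← a3])
    (by
      rw [t00, t11] at a4
      norm_num at a4 ⊢
      rw [← a4]; ring)
  have p02 := two_eq (p := 1) (q := 9) (U := co 0 (T (bas 2)) + co 2 (T (bas 0)))
    (V := co 0 (T (bas 2)) + 9 * co 2 (T (bas 0))) (by norm_num) (by norm_num) (by norm_num)
    (by
      rw [t00, t22] at a5
      norm_num at a5 ⊢
      rw [← a5])
    (by
      rw [t00, t22] at a6
      norm_num at a6 ⊢
      rw [← a6]; ring)
  have p12 := two_eq (p := 4) (q := 9) (U := co 1 (T (bas 2)) + co 2 (T (bas 1)))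
    (V := 4 * co 1 (T (bas 2)) + 9 * co 2 (T (bas 1))) (by norm_num) (by norm_num) (by norm_num)
    (by
      rw [t11, t22] at a7
      norm_num at a7 ⊢
      rw [← a7])
    (by
      rw [t11, t22] at a8
      norm_num at a8 ⊢
      rw [← a8]; ring)
  have t01 : co 0 (T (bas 1)) = 0 := by linarith [p01.1, p01.2]
  have t10 : co 1 (T (bas 0)) = 0 := by linarith [p01.1, p01.2]
  have t02 : co 0 (T (bas 2)) = 0 := by linarith [p02.1, p02.2]
  have t20 : co 2 (T (bas 0)) = 0 := by linarith [p02.1, p02.2]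
  have t12 : co 1 (T (bas 2)) = 0 := by linarith [p12.1, p12.2]
  have t21 : co 2 (T (bas 1)) = 0 := by linarith [p12.1, p12.2]
  have b0 : T (bas 0) = 0 := by rw [expand (T (bas 0)), t00, t10, t20]; simp
  have b1 : T (bas 1) = 0 := by rw [expand (T (bas 1)), t01, t11, t21]; simp
  have b2 : T (bas 2) = 0 := by rw [expand (T (bas 2)), t02, t12, t22]; simp
  ext1 x
  rw [expand x, map_add, map_add, map_smul, map_smul, map_smul, b0, b1, b2]
  simp

lemma numIndex_pos : 0 < numIndex X := by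
  obtain ⟨K, hK, hL⟩ := Lmap.exists_antilipschitzWith (LinearMap.ker_eq_bot.2 Lmap_inj)
  -- a bound for the norms of the test vectors
  set B : ℝ := 1 + ∑ k, ‖tv k‖ with hB
  have hBpos : 0 < B := by positivity
  have hBk : ∀ k, ‖tv k‖ ≤ B := by
    intro k
    have : ‖tv k‖ ≤ ∑ k, ‖tv k‖ := Finset.single_le_sum (f := fun k => ‖tv k‖)
      (fun _ _ => norm_nonneg _) (Finset.mem_univ k)
    linarith
  have hKB : (0:ℝ) < K * B := by positivity
  have hmain : ∀ T : X →L[ℝ] X, ‖T‖ = 1 → (K * B)⁻¹ ≤ numRad (fun x => T x) := by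
    intro T hT
    have hv0 : 0 ≤ numRad (fun x => T x) :=
      Real.sSup_nonneg (by rintro _ ⟨p, _, rfl⟩; exact abs_nonneg _)
    have h1 : ‖T‖ ≤ K * ‖Lmap T‖ := by
      have := hL.le_mul_dist T 0
      rw [map_zero, dist_zero_right, dist_zero_right] at this
      exact this
    have h2 : ‖Lmap T‖ ≤ B * numRad (fun x => T x) := by
      rw [pi_norm_le_iff_of_nonneg (by positivity)]
      intro k
      have h3 := numRad_ge T (tv k) (tv_ne k)
      calc ‖Lmap T k‖ = |F (tv k) (T (tv k))| := rfl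
        _ ≤ ‖tv k‖ * numRad (fun x => T x) := h3
        _ ≤ B * numRad (fun x => T x) := by gcongr; exact hBk k
    rw [hT] at h1
    rw [inv_le_iff_one_le_mul₀ hKB]
    calc (1:ℝ) ≤ K * ‖Lmap T‖ := h1
      _ ≤ K * (B * numRad (fun x => T x)) := by gcongr
      _ = numRad (fun x => T x) * (K * B) := by ring
  have : (K * B)⁻¹ ≤ numIndex X := by
    apply le_csInf
    · exact ⟨_, ContinuousLinearMap.id ℝ X, ContinuousLinearMap.norm_id, rfl⟩
    · rintro r ⟨T, hT, rfl⟩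
      exact hmain T hT
  exact lt_of_lt_of_le (inv_pos.2 hKB) this

/-- There is a finite-dimensional real Banach space with `n^{(2)}(X) = 0` and `n(X) > 0`. -/
theorem result :
    ∃ (X : Type) (_ : NormedAddCommGroup X) (_ : NormedSpace ℝ X),
      FiniteDimensional ℝ X ∧ CompleteSpace X ∧ polyIndex 2 X = 0 ∧ 0 < numIndex X :=
  ⟨X, inferInstance, inferInstance, inferInstance, FiniteDimensional.complete ℝ X,
    polyIndex_zero, numIndex_pos⟩

end

end Pool.Agent.Results.MP_07f7bf_an.EulerTop
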